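import Pool.Agent.Q132.HarmSD
import Pool.Agent.Q132.Presented

/-! Every semidihedral `2`-group of order `2 ^ n`, `n ≥ 4`, is harmonious. -/

namespace Pool.Agent.Results.MP_3abf0f_al.Harmonious

open Pool.Agent.Q132.Walks

/-- The relators `a ^ (2 ^ (n - 1))`, `b ^ 2`, `b a b⁻¹ (a ^ (2 ^ (n - 2) - 1))⁻¹` of the
semidihedral group of order `2 ^ n`; the generators are `a = FreeGroup.of false`,
`b = FreeGroup.of true`. -/
def relators (n : ℕ) : Set (FreeGroup Bool) :=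
  {FreeGroup.of false ^ (2 ^ (n - 1)), FreeGroup.of true ^ 2,
    FreeGroup.of true * FreeGroup.of false * (FreeGroup.of true)⁻¹ *
      (FreeGroup.of false ^ (2 ^ (n - 2) - 1))⁻¹}

/-- The semidihedral group
`⟨a, b | a ^ (2 ^ (n - 1)) = b ^ 2 = 1, b a b⁻¹ = a ^ (2 ^ (n - 2) - 1)⟩`. -/
abbrev Grp (n : ℕ) : Type := PresentedGroup (relators n)

/-- the ordering for `n = 4` -/
def list4 : List (Bool × ℤ) :=
    [(false, 0), (true, 1), (false, 2), (true, 2), (false, 1), (true, 5), (true, 0), (false, 6),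
     (false, 4), (false, 5), (false, 7), (true, 4), (true, 6), (true, 3), (true, 7), (false, 3),
     (false, 0)]

theorem small4 {G : Type*} [Group G] (a b : G) (hcard : Nat.card G = 2 * 8) (ha : a ^ 8 = 1)
    (hb : b ^ 2 = 1) (hab : b * a * b⁻¹ = a ^ 3) (hgen : Subgroup.closure {a, b} = ⊤) :
    Harmonious G :=
  harmonious_small a b 3 8 (by norm_num) hcard ha hb hab hgen list4 (false, 0) rfl
    rfl rfl (by decide +kernel)

theorem large {G : Type*} [Group G] (a b : G) (k : ℕ) (hk : 1 ≤ k) (M c : ℕ) (hM : M = 16 * k)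
    (hc : c = 8 * k - 1) (hcard : Nat.card G = 2 * M) (ha : a ^ M = 1) (hb : b ^ 2 = 1)
    (hab : b * a * b⁻¹ = a ^ c) (hgen : Subgroup.closure {a, b} = ⊤) : Harmonious G := by
  subst hM hc
  exact Pool.Agent.Q132.HarmSD.main a b k hk hcard ha hb hab hgen

/-- For every `n ≥ 4` the semidihedral group of order `2 ^ n` is harmonious. -/
theorem result (n : ℕ) (hn : 4 ≤ n) : Nat.card (Grp n) = 2 ^ n ∧ Harmonious (Grp n) := by
  obtain ⟨m, rfl⟩ : ∃ m, n = m + 4 := ⟨n - 4, by omega⟩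
  have e1 : m + 4 - 1 = m + 3 := by omega
  have e2 : m + 4 - 2 = m + 2 := by omega
  have hpos : 0 < 2 ^ m := Nat.pos_of_ne_zero (by positivity)
  have hrel : relators (m + 4) = rels (8 * 2 ^ m) (4 * 2 ^ m - 1) := by
    unfold relators rels
    rw [e1, e2, show 2 ^ (m + 3) = 8 * 2 ^ m by ring, show 2 ^ (m + 2) = 4 * 2 ^ m by ring]
  have hcast : ((4 * 2 ^ m - 1 : ℕ) : ZMod (8 * 2 ^ m)) = 4 * 2 ^ m - 1 := by
    rw [Nat.cast_sub (by omega)]
    push_cast
    ring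
  have hzero : ((8 * 2 ^ m : ℕ) : ZMod (8 * 2 ^ m)) = 0 := ZMod.natCast_self _
  push_cast at hzero
  obtain ⟨hcard, ha, hb, hab, hgen⟩ := presented_facts (8 * 2 ^ m) (4 * 2 ^ m - 1) (by omega)
    (by
      rw [hcast]
      linear_combination (2 * 2 ^ m - 1 : ZMod (8 * 2 ^ m)) * hzero)
    (by
      intro h
      have h1 : ((4 * 2 ^ m - 1 : ℕ) : ZMod (8 * 2 ^ m)) = ((1 : ℕ) : ZMod (8 * 2 ^ m)) := by
        rw [h, Nat.cast_one]
      rw [ZMod.natCast_eq_natCast_iff'] at h1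
      rw [Nat.mod_eq_of_lt (by omega), Nat.mod_eq_of_lt (by omega)] at h1
      omega)
  show Nat.card (PresentedGroup (relators (m + 4))) = _ ∧
    Harmonious (PresentedGroup (relators (m + 4)))
  rw [hrel]
  refine ⟨by rw [hcard]; ring, ?_⟩
  rcases (by omega : m = 0 ∨ 1 ≤ m) with rfl | hm
  · exact small4 _ _ hcard ha hb hab hgen
  · obtain ⟨i, rfl⟩ : ∃ i, m = i + 1 := ⟨m - 1, by omega⟩
    exact large _ _ (2 ^ i) (Nat.pos_of_ne_zero (by positivity)) _ _ (by ring)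
      (by rw [show 4 * 2 ^ (i + 1) = 8 * 2 ^ i by ring]) hcard ha hb hab hgen

end Pool.Agent.Results.MP_3abf0f_al.Harmonious
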